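import Pool.Agent.Helper7.KT.St

/-!
Project KT (MP_5176ab_co), module SUP: binomial coefficients are superadditive.
-/

set_option autoImplicit false

namespace Pool.Agent.Helper26.KT

open Finset SimpleGraph Filter Topology
open EX Pool.Agent.Helper7.KT

open scoped Classical

private theorem sup_aux (x k : ℕ) : ∀ y : ℕ,
    x.choose (k + 1) + y.choose (k + 1) ≤ (x + y).choose (k + 1) := by
  intro y
  induction y with
  | zero => simp
  | succ y ih =>
    have h1 : (x + (y + 1)).choose (k + 1) = (x + y).choose k + (x + y).choose (k + 1) := by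
      rw [← add_assoc, Nat.choose_succ_succ]
    have h2 : (y + 1).choose (k + 1) = y.choose k + y.choose (k + 1) :=
      Nat.choose_succ_succ y k
    have h3 : y.choose k ≤ (x + y).choose k := Nat.choose_le_choose k (Nat.le_add_left y x)
    rw [h1, h2]
    omega

/-- **SUP** -/
theorem hSUP : StSUP := by
  intro n x k hx hk
  obtain ⟨y, rfl⟩ := Nat.exists_eq_add_of_le hx
  obtain ⟨j, rfl⟩ := Nat.exists_eq_add_of_le' hk
  rw [Nat.add_sub_cancel_left]
  exact sup_aux x j y

end Pool.Agent.Helper26.KT
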